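import Mathlib

open Set Filter Topology Matrix

namespace Pool.Agent.Results.MP_241ca8_al.No

/-- Real projective space of `ℝⁿ` with the quotient topology. -/
abbrev PV (n : ℕ) : Type := Quotient (projectivizationSetoid ℝ (Fin n → ℝ))

/-- `B` is a bilinear form attached to the Coxeter matrix `M` (entry `0` means `∞`). -/
def Adm {n : ℕ} (M : CoxeterMatrix (Fin n)) (B : Matrix (Fin n) (Fin n) ℝ) : Prop :=
  B.IsSymm ∧ (∀ s, B s s = 1) ∧ ∀ s t, s ≠ t →
    (M s t ≠ 0 → B s t = -Real.cos (Real.pi / M s t)) ∧ (M s t = 0 → B s t ≤ -1)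

/-- Signature `(n-1,1)`. -/
def Lorentzian {n : ℕ} (B : Matrix (Fin n) (Fin n) ℝ) : Prop :=
  ∃ P : Matrix (Fin n) (Fin n) ℝ, P.det ≠ 0 ∧
    ∃ i, Pᵀ * B * P = Matrix.diagonal fun j => if j = i then -1 else 1

/-- The simple reflection `s(x) = x - 2B(α_s,x)α_s`. -/
def refl {n : ℕ} (B : Matrix (Fin n) (Fin n) ℝ) (s : Fin n) (x : Fin n → ℝ) : Fin n → ℝ :=
  x - (2 * (B *ᵥ x) s) • Pi.single s 1

/-- The orbit `W·x` (all words in the simple reflections). -/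
def orb {n : ℕ} (B : Matrix (Fin n) (Fin n) ℝ) (x : Fin n → ℝ) : Set (Fin n → ℝ) :=
  range fun l : List (Fin n) => l.foldr (refl B) x

/-- Accumulation points in projective space of the classes of the nonzero vectors of `A`. -/
def acc {n : ℕ} (A : Set (Fin n → ℝ)) : Set (PV n) :=
  derivedSet {p | ∃ x ∈ A, ∃ h : x ≠ 0, p = ⟦⟨x, h⟩⟧}

/-- The catchment set of the limit roots. -/
def catchment {n : ℕ} (B : Matrix (Fin n) (Fin n) ℝ) : Set (PV n) :=
  {p | ∃ x, ∃ h : x ≠ 0, p = ⟦⟨x, h⟩⟧ ∧ acc (orb B x) = acc (⋃ s, orb B (Pi.single s 1))}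

abbrev V := Fin 3 → ℝ

def B0 : Matrix (Fin 3) (Fin 3) ℝ := !![1, -1, -1; -1, 1, -1; -1, -1, 1]

lemma r0 (x : V) : refl B0 0 x = ![-x 0 + 2 * x 1 + 2 * x 2, x 1, x 2] := by
  ext i; fin_cases i <;> simp [refl, B0, mulVec, dotProduct, Fin.sum_univ_three]; ring
lemma r1 (x : V) : refl B0 1 x = ![x 0, -x 1 + 2 * x 0 + 2 * x 2, x 2] := by
  ext i; fin_cases i <;> simp [refl, B0, mulVec, dotProduct, Fin.sum_univ_three]; ring
lemma r2 (x : V) : refl B0 2 x = ![x 0, x 1, -x 2 + 2 * x 0 + 2 * x 1] := by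
  ext i; fin_cases i <;> simp [refl, B0, mulVec, dotProduct, Fin.sum_univ_three]; ring

lemma refl_smul (s : Fin 3) (c : ℝ) (x : V) : refl B0 s (c • x) = c • refl B0 s x := by
  simp only [refl, mulVec_smul, Pi.smul_apply, smul_eq_mul, smul_sub, smul_smul]
  congr 2; ring

lemma refl_refl (s : Fin 3) (x : V) : refl B0 s (refl B0 s x) = x := by
  fin_cases s <;> (ext i; fin_cases i <;> simp [r0, r1, r2]; ring)

lemma refl_cont (s : Fin 3) : Continuous (refl B0 s) := by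
  unfold refl; fun_prop

def Q (x : V) : ℝ := x 0 ^ 2 + x 1 ^ 2 + x 2 ^ 2 - 2 * (x 0 * x 1 + x 0 * x 2 + x 1 * x 2)

lemma Q_refl (s : Fin 3) (x : V) : Q (refl B0 s x) = Q x := by
  fin_cases s <;> simp [r0, r1, r2, Q] <;> ring

def IsInt (x : V) : Prop := ∀ i, ∃ k : ℤ, x i = k

lemma IsInt.refl {x : V} (h : IsInt x) (s : Fin 3) : IsInt (refl B0 s x) := by
  obtain ⟨a, ha⟩ := h 0
  obtain ⟨b, hb⟩ := h 1
  obtain ⟨c, hc⟩ := h 2
  intro i
  fin_cases s <;> fin_cases i <;> simp only [r0, r1, r2, ha, hb, hc, Fin.zero_eta, Fin.mk_one,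
    Fin.reduceFinMk, cons_val_zero, cons_val_one, cons_val] <;> exact ⟨_, by norm_cast⟩

lemma orb_ind {P : V → Prop} {x : V} (h0 : P x) (h : ∀ s y, P y → P (refl B0 s y)) :
    ∀ y ∈ orb B0 x, P y := by
  rintro _ ⟨l, rfl⟩
  induction l with
  | nil => exact h0
  | cons s l ih => exact h s _ ih

lemma self_mem (x : V) : x ∈ orb B0 x := ⟨[], rfl⟩

lemma refl_mem {x y : V} (h : y ∈ orb B0 x) (s : Fin 3) : refl B0 s y ∈ orb B0 x := by
  obtain ⟨l, rfl⟩ := h; exact ⟨s :: l, rfl⟩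

lemma mk_eq {x y : V} (hx : x ≠ 0) (hy : y ≠ 0) :
    (⟦⟨x, hx⟩⟧ : PV 3) = ⟦⟨y, hy⟩⟧ ↔ ∃ a : ℝ, a • y = x :=
  Projectivization.mk_eq_mk_iff' ℝ x y hx hy

lemma t1 : T1Space (PV 3) := ⟨fun p => by
  induction p using Quotient.inductionOn with
  | _ z =>
  rw [← isQuotientMap_quotient_mk'.isClosed_preimage]
  convert (Submodule.closed_of_finiteDimensional (Submodule.span ℝ {z.1})).preimage
    continuous_subtype_val using 1
  ext x
  exact (mk_eq x.2 z.2).trans Submodule.mem_span_singleton.symm⟩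

lemma tendsto_mk {u : ℕ → V} {x : V} (hu : ∀ m, u m ≠ 0) (hx : x ≠ 0) (h : Tendsto u atTop (𝓝 x)) :
    Tendsto (fun m => (⟦⟨u m, hu m⟩⟧ : PV 3)) atTop (𝓝 ⟦⟨x, hx⟩⟧) :=
  (continuous_quotient_mk'.tendsto _).comp (tendsto_subtype_rng.mpr h)

def N (x : V) : ℝ := x 0 ^ 2 + x 1 ^ 2 + x 2 ^ 2

lemma N_pos {x : V} (hx : x ≠ 0) : 0 < N x := by
  by_contra h
  apply hx
  unfold N at h
  ext i
  fin_cases i <;> simp <;> nlinarith [sq_nonneg (x 0), sq_nonneg (x 1), sq_nonneg (x 2)]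

noncomputable def g : PV 3 → ℝ := Quotient.lift (fun x => Q x.1 / N x.1) fun x y h => by
  obtain ⟨a, ha⟩ := (mk_eq x.2 y.2).mp (Quotient.sound h)
  have h0 : a ≠ 0 := by rintro rfl; exact x.2 (by simpa using ha.symm)
  have := (N_pos y.2).ne'
  rw [← ha, show Q (a • y.1) = a ^ 2 * Q y.1 by simp [Q]; ring,
    show N (a • y.1) = a ^ 2 * N y.1 by simp [N]; ring]
  field_simp

lemma g_cont : Continuous g :=
  Continuous.quotient_lift (Continuous.div
    ((show Continuous Q by unfold Q; fun_prop).comp continuous_subtype_val)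
    ((show Continuous N by unfold N; fun_prop).comp continuous_subtype_val)
    fun x => (N_pos x.2).ne') _

lemma acc_sub {A : Set V} {c : ℝ} (hA : ∀ x ∈ A, IsInt x ∧ Q x = c) {p : PV 3} (hp : p ∈ acc A) :
    g p = 0 := by
  have := t1
  by_contra h0
  have hpos : 0 < |g p| / 2 := by positivity
  set C : Set (PV 3) := {p | ∃ x ∈ A, ∃ h : x ≠ 0, p = ⟦⟨x, h⟩⟧}
  set U : Set (PV 3) := {q | |g p| / 2 < |g q|}
  have hU : U ∈ 𝓝 p := (isOpen_lt continuous_const g_cont.abs).mem_nhds (half_lt_self (abs_pos.mpr h0))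
  obtain ⟨K, hK⟩ := exists_nat_gt (|c| / (|g p| / 2) + 1)
  have hfin : (U ∩ C).Finite := by
    have h1 : {x : V | ∀ i, x i ∈ ((↑) : ℤ → ℝ) '' Icc (-K : ℤ) K}.Finite :=
      Finite.pi' fun _ => (finite_Icc _ _).image _
    refine ((h1.preimage Subtype.val_injective.injOn).image
      (fun x : {v : V // v ≠ 0} => (⟦x⟧ : PV 3))).subset ?_
    rintro _ ⟨hq, x, hx, h, rfl⟩
    refine ⟨⟨x, h⟩, fun i => ?_, rfl⟩
    obtain ⟨k, hk⟩ := (hA x hx).1 i
    have h2 : |g p| / 2 < |Q x / N x| := hq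
    rw [(hA x hx).2, abs_div, abs_of_pos (N_pos h), lt_div_iff₀ (N_pos h), mul_comm,
      ← lt_div_iff₀ hpos] at h2
    have h3 : x i ^ 2 ≤ N x := by
      unfold N
      fin_cases i <;> simp <;> nlinarith [sq_nonneg (x 0), sq_nonneg (x 1), sq_nonneg (x 2)]
    refine ⟨k, ?_, hk.symm⟩
    rw [hk] at h3
    have h4 : (-(K : ℝ)) ≤ k ∧ (k : ℝ) ≤ K := by constructor <;> nlinarith
    exact_mod_cast h4
  have hcl := (hfin.subset (sdiff_subset (t := {p}))).isClosed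
  obtain ⟨y, ⟨⟨h1, h2⟩, h3⟩, h4⟩ := accPt_iff_nhds.mp hp _
    (inter_mem hU (hcl.isOpen_compl.mem_nhds fun h => h.2 rfl))
  exact h2 ⟨⟨h1, h3⟩, h4⟩

/-- sequential accumulation -/
def G (A : Set V) (x : V) : Prop :=
  ∃ u : ℕ → V, (∀ m, (∃ c : ℝ, c ≠ 0 ∧ c • u m ∈ A) ∧ ∀ a : ℝ, a • x ≠ u m) ∧ Tendsto u atTop (𝓝 x)

lemma G.acc {A : Set V} {x : V} (h : G A x) (hx : x ≠ 0) : (⟦⟨x, hx⟩⟧ : PV 3) ∈ acc A := by
  obtain ⟨u, hu, ht⟩ := h
  have h0 : ∀ m, u m ≠ 0 := fun m h => (hu m).2 0 (by simp [h])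
  refine accPt_iff_nhds.mpr fun U hU => ?_
  obtain ⟨m, hm⟩ := ((tendsto_mk h0 hx ht).eventually hU).exists
  obtain ⟨⟨c, hc, h1⟩, h2⟩ := hu m
  refine ⟨_, ⟨hm, _, h1, smul_ne_zero hc (h0 m), ((mk_eq _ _).mpr ⟨c, rfl⟩).symm⟩, fun h => ?_⟩
  obtain ⟨a, ha⟩ := (mk_eq _ _).mp h
  exact h2 a ha

lemma G.refl {y x : V} (h : G (orb B0 y) x) (s : Fin 3) : G (orb B0 y) (refl B0 s x) := by
  obtain ⟨u, hu, ht⟩ := h
  refine ⟨fun m => No.refl B0 s (u m), fun m => ?_, ((refl_cont s).tendsto x).comp ht⟩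
  obtain ⟨⟨c, hc, h1⟩, h2⟩ := hu m
  refine ⟨⟨c, hc, refl_smul s c _ ▸ refl_mem h1 s⟩, fun a ha => h2 a ?_⟩
  rw [← refl_refl s (u m), ← show _ = No.refl B0 s (u m) from ha, refl_smul, refl_refl]

lemma G.smul {A : Set V} {x : V} (h : G A x) {t : ℝ} (ht0 : t ≠ 0) : G A (t • x) := by
  obtain ⟨u, hu, ht⟩ := h
  refine ⟨fun m => t • u m, fun m => ?_, ht.const_smul t⟩
  obtain ⟨⟨c, hc, h1⟩, h2⟩ := hu m
  refine ⟨⟨c / t, div_ne_zero hc ht0, by rwa [smul_smul, div_mul_cancel₀ _ ht0]⟩, fun a ha => h2 a ?_⟩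
  rw [smul_comm] at ha
  exact smul_right_injective V ht0 ha

lemma cusp {y : V} (i j k : Fin 3) (h : (i, j, k) = (0, 1, 2) ∨ (i, j, k) = (0, 2, 1) ∨
    (i, j, k) = (1, 2, 0)) (hy : y k ≠ 0) : G (orb B0 y) (Pi.single i 1 + Pi.single j 1) := by
  set c : V := Pi.single i 1 + Pi.single j 1 with hc
  set a : V := (2 * (y i - y j)) • c + (2 * y k) • (Pi.single i 1 - Pi.single j 1) with ha
  have h1 : ∀ m : ℕ, y + (m : ℝ) • a + (4 * m ^ 2 * y k) • c ∈ orb B0 y := by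
    intro m
    induction m with
    | zero => simpa using self_mem y
    | succ m ih =>
      convert refl_mem (refl_mem ih j) i using 1
      rcases h with h | h | h <;> obtain ⟨rfl, rfl, rfl⟩ := h <;>
        (ext l; fin_cases l <;> simp [ha, hc, r0, r1, r2] <;> ring)
  have h2 : Tendsto (fun m : ℕ => 1 / ((m : ℝ) + 1)) atTop (𝓝 0) :=
    tendsto_one_div_add_atTop_nhds_zero_nat
  have h3 : G (orb B0 y) ((4 * y k) • c) := by
    refine ⟨fun m => (1 / ((m : ℝ) + 1)) ^ 2 • y + (1 / ((m : ℝ) + 1)) • a + (4 * y k) • c,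
      fun m => ⟨⟨((m : ℝ) + 1) ^ 2, by positivity, ?_⟩, fun b hb => ?_⟩, ?_⟩
    · convert h1 (m + 1) using 1
      simp only [smul_add, smul_smul]
      push_cast
      congr 2
      · rw [← mul_pow, mul_one_div_cancel (by positivity), one_pow, one_smul]
      · congr 1; field_simp
      · ring
    · have := congrFun hb k
      have hm : (m : ℝ) + 1 ≠ 0 := by positivity
      rcases h with h | h | h <;> obtain ⟨rfl, rfl, rfl⟩ := h <;> simp [ha, hc, hy, hm] at this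
    · simpa using (((h2.pow 2).smul_const y).add (h2.smul_const a)).add_const ((4 * y k) • c)
  simpa [smul_smul, mul_assoc, hy] using h3.smul (t := (4 * y k)⁻¹) (by simpa using hy)

def v (p q : ℝ) : V := ![p ^ 2, q ^ 2, (p - q) ^ 2]

lemma v_smul (t p q : ℝ) : v (t * p) (t * q) = t ^ 2 • v p q := by
  ext i; fin_cases i <;> simp [v] <;> ring

lemma v_ne {p q : ℝ} (h : p ≠ 0 ∨ q ≠ 0) : v p q ≠ 0 := fun h0 => by
  have h1 := congrFun h0 0
  have h2 := congrFun h0 1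
  simp [v] at h1 h2
  tauto

lemma G_int {y : V} (hy : ∀ k, y k ≠ 0) (n : ℕ) : ∀ P R : ℤ, P.natAbs + R.natAbs = n →
    (P ≠ 0 ∨ R ≠ 0) → G (orb B0 y) (v P R) := by
  induction n using Nat.strong_induction_on with
  | _ n ih =>
  have key : ∀ P R : ℤ, P.natAbs + R.natAbs = n → 0 ≤ P → 0 ≤ R → (P ≠ 0 ∨ R ≠ 0) →
      G (orb B0 y) (v P R) := by
    intro P R hn hP hR h0
    by_cases h1 : R = 0
    · convert (cusp 0 2 1 (by simp) (hy 1)).smul (t := (P : ℝ) ^ 2) (by simp; tauto) using 1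
      ext i; fin_cases i <;> simp [v, h1]
    by_cases h2 : P = 0
    · convert (cusp 1 2 0 (by simp) (hy 0)).smul (t := (R : ℝ) ^ 2) (by simpa using h1) using 1
      ext i; fin_cases i <;> simp [v, h2]
    rcases lt_trichotomy P R with h | h | h
    · convert (ih _ (by omega) P (2 * P - R) rfl (Or.inl h2)).refl 1 using 1
      ext i; fin_cases i <;> simp [v, r1] <;> ring
    · convert (cusp 0 1 2 (by simp) (hy 2)).smul (t := (R : ℝ) ^ 2) (by simpa using h1) using 1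
      ext i; fin_cases i <;> simp [v, h]
    · convert (ih _ (by omega) (2 * R - P) R rfl (Or.inr h1)).refl 0 using 1
      ext i; fin_cases i <;> simp [v, r0] <;> ring
  have flip : ∀ p q : ℝ, G (orb B0 y) (v p (-q)) → G (orb B0 y) (v p q) := fun p q h => by
    convert h.refl 2 using 1
    ext i; fin_cases i <;> simp [v, r2]; ring
  have neg : ∀ p q : ℝ, v (-p) (-q) = v p q := fun p q => by
    ext i; fin_cases i <;> simp [v]; ring
  intro P R hn h0
  rcases le_total 0 P with hP | hP <;> rcases le_total 0 R with hR | hR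
  · exact key P R hn hP hR h0
  · exact flip _ _ (by simpa using key P (-R) (by omega) hP (by omega) (by omega))
  · refine flip _ _ ?_
    rw [← neg, neg_neg]
    simpa using key (-P) R (by omega) (by omega) hR (by omega)
  · rw [← neg]
    simpa using key (-P) (-R) (by omega) (by omega) (by omega) (by omega)

lemma acc_v {y : V} (hy : ∀ k, y k ≠ 0) {p q : ℝ} (h : p ≠ 0 ∨ q ≠ 0) :
    (⟦⟨v p q, v_ne h⟩⟧ : PV 3) ∈ acc (orb B0 y) := by
  have := t1
  have hd : Dense (range (Prod.map ((↑) : ℚ → ℝ) ((↑) : ℚ → ℝ))) :=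
    Rat.denseRange_cast.prodMap Rat.denseRange_cast
  have ho : IsOpen {z : ℝ × ℝ | z.1 ≠ 0 ∨ z.2 ≠ 0} :=
    (isOpen_ne_fun continuous_fst continuous_const).union (isOpen_ne_fun continuous_snd continuous_const)
  obtain ⟨u, hu, ht⟩ := mem_closure_iff_seq_limit.mp (hd.open_subset_closure_inter ho
    (show (p, q) ∈ _ from h))
  have hc : Continuous fun z : ℝ × ℝ => v z.1 z.2 := by unfold v; fun_prop
  refine (isClosed_derivedSet _).mem_of_tendsto
    (tendsto_mk (fun m => v_ne (hu m).1) _ ((hc.tendsto _).comp ht)) (Eventually.of_forall fun m => ?_)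
  obtain ⟨h1, ⟨a, b⟩, h2⟩ := hu m
  refine G.acc ?_ _
  have ha : (a.den : ℝ) ≠ 0 := by positivity
  have hb : (b.den : ℝ) ≠ 0 := by positivity
  have := (G_int hy _ (a.num * b.den) (b.num * a.den) rfl (by
    rw [← h2] at h1
    simpa using h1)).smul (t := ((a.den * b.den : ℝ)⁻¹) ^ 2) (by positivity)
  rw [← v_smul] at this
  convert this using 2
  · rw [← h2]; simp only [Prod.map_fst, Rat.cast_def]; push_cast; field_simp
  · rw [← h2]; simp only [Prod.map_snd, Rat.cast_def]; push_cast; field_simp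

lemma sub_acc {y : V} (hy : ∀ k, y k ≠ 0) {p : PV 3} (hp : g p = 0) : p ∈ acc (orb B0 y) := by
  induction p using Quotient.inductionOn with
  | _ z =>
  obtain ⟨x, hx⟩ := z
  have hQ : Q x = 0 := (div_eq_zero_iff.mp hp).resolve_right (N_pos hx).ne'
  unfold Q at hQ
  by_cases h0 : x 0 = 0
  · convert acc_v hy (p := 0) (q := 1) (by simp) using 1
    refine (mk_eq _ _).mpr ⟨x 1, ?_⟩
    have : x 1 = x 2 := by rw [h0] at hQ; nlinarith [sq_nonneg (x 1 - x 2)]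
    ext i; fin_cases i <;> simp [v, h0, this]
  · convert acc_v hy (p := x 0) (q := (x 0 + x 1 - x 2) / 2) (Or.inl h0) using 1
    refine ((mk_eq _ _).mpr ⟨x 0, ?_⟩).symm
    ext i; fin_cases i <;> simp [v] <;> nlinarith

lemma acc_mono {A A' : Set V} (h : ∀ x ∈ A, ∃ c : ℝ, c ≠ 0 ∧ c • x ∈ A') : acc A ⊆ acc A' := by
  refine derivedSet_mono _ _ ?_
  rintro _ ⟨x, hx, h0, rfl⟩
  obtain ⟨c, hc, h1⟩ := h x hx
  exact ⟨_, h1, smul_ne_zero hc h0, ((mk_eq _ _).mpr ⟨c, rfl⟩).symm⟩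

lemma acc_smul (x : V) {c : ℝ} (hc : c ≠ 0) : acc (orb B0 x) ⊆ acc (orb B0 (c • x)) :=
  acc_mono fun y hy => ⟨c, hc, orb_ind (P := fun y => c • y ∈ orb B0 (c • x)) (self_mem _)
    (fun s _ h => refl_smul s c _ ▸ refl_mem h s) y hy⟩

lemma orb_int {x : V} (hx : IsInt x) : ∀ y ∈ orb B0 x, IsInt y ∧ Q y = Q x :=
  orb_ind ⟨hx, rfl⟩ fun s _ h => ⟨h.1.refl s, (Q_refl s _).trans h.2⟩

lemma roots : acc (⋃ s, orb B0 (Pi.single s 1)) = {p | g p = 0} := by
  refine Subset.antisymm (fun p hp => acc_sub (c := 1) (fun x hx => ?_) hp) fun p hp => ?_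
  · obtain ⟨s, hs⟩ := mem_iUnion.mp hx
    have := orb_int (x := Pi.single s 1) (fun i => ⟨Pi.single (M := fun _ => ℤ) s 1 i, by
      by_cases h : i = s <;> simp [h]⟩) x hs
    refine ⟨this.1, this.2.trans ?_⟩
    fin_cases s <;> simp [Q]
  · refine acc_mono (fun x hx => ⟨1, one_ne_zero, mem_iUnion.mpr ⟨0, ?_⟩⟩)
      (sub_acc (y := refl B0 2 (refl B0 1 (Pi.single 0 1))) (fun k => ?_) hp)
    · rw [one_smul]
      exact orb_ind (refl_mem (refl_mem (self_mem _) 1) 2) (fun s _ h => refl_mem h s) x hx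
    · fin_cases k <;> simp [r1, r2]; norm_num

theorem result : ∃ (n : ℕ) (M : CoxeterMatrix (Fin n)) (B : Matrix (Fin n) (Fin n) ℝ),
    Adm M B ∧ Lorentzian B ∧ ¬ IsClosed (catchment B) := by
  refine ⟨3, ⟨!![1, 0, 0; 0, 1, 0; 0, 0, 1], by decide, by decide, by decide⟩, B0, ⟨?_, ?_, ?_⟩,
    ⟨!![1, 1, 0; 0, 1 / 2, 1 / 2; 0, 1 / 2, -1 / 2], ?_, 1, ?_⟩, fun hcl => ?_⟩
  · ext i j; fin_cases i <;> fin_cases j <;> simp [B0]
  · intro s; fin_cases s <;> simp [B0]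
  · intro s t h; fin_cases s <;> fin_cases t <;> simp [B0] at h ⊢
  · simp [det_fin_three]
    norm_num
  · ext i j; fin_cases i <;> fin_cases j <;>
      simp [B0, mul_apply, Fin.sum_univ_three, vecMul, dotProduct] <;> norm_num
  set r := √(5 : ℝ)
  have hr : r ^ 2 = 5 := Real.sq_sqrt (by norm_num)
  have hr0 : 0 < r := Real.sqrt_pos.mpr (by norm_num)
  have hr1 : 2 < r := by nlinarith
  have hr2 : r < 9 / 4 := by nlinarith
  set u₀ : V := ![1, -1, 1] with hu₀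
  set u₁ : V := ![2, 3 + r, 7 + 3 * r] with hu₁
  have hpos : ∀ i, 0 < (u₀ + u₁) i := fun i => by
    fin_cases i <;> simp [hu₀, hu₁] <;> linarith
  have hne : u₀ + u₁ ≠ 0 := fun h => (hpos 0).ne' (congrFun h 0)
  have hy : ∀ (m : ℕ) i, ((⌈(u₀ + u₁) i * ((m : ℝ) + 1)⌉₊ : ℝ)) ≠ 0 := fun m i => by
    have : 0 < (u₀ + u₁) i * ((m : ℝ) + 1) := mul_pos (hpos i) (by positivity)
    exact_mod_cast (Nat.ceil_pos.mpr this).ne'
  have hy' : ∀ m : ℕ, (fun i => (⌈(u₀ + u₁) i * ((m : ℝ) + 1)⌉₊ : ℝ) / ((m : ℝ) + 1)) ≠ 0 :=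
    fun m h => div_ne_zero (hy m 0) (by positivity) (congrFun h 0)
  have hmem : (⟦⟨u₀ + u₁, hne⟩⟧ : PV 3) ∈ catchment B0 := by
    refine hcl.mem_of_tendsto (tendsto_mk hy' hne (tendsto_pi_nhds.mpr fun i =>
      (tendsto_nat_ceil_mul_div_atTop (hpos i).le).comp
        (tendsto_atTop_add_const_right _ 1 tendsto_natCast_atTop_atTop)))
      (Eventually.of_forall fun m => ⟨fun i => (⌈(u₀ + u₁) i * ((m : ℝ) + 1)⌉₊ : ℝ),
        fun h => hy m 0 (congrFun h 0), (mk_eq _ _).mpr ⟨((m : ℝ) + 1)⁻¹, ?_⟩, ?_⟩)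
    · ext i; simp [div_eq_inv_mul]
    · rw [roots]
      exact Subset.antisymm (fun p hp => acc_sub (orb_int fun i => ⟨_, (Int.cast_natCast _).symm⟩) hp)
        fun p hp => sub_acc (hy m) hp
  obtain ⟨x, hx, h1, h2⟩ := hmem
  obtain ⟨a, ha⟩ := (mk_eq _ _).mp h1.symm
  have ha0 : a ≠ 0 := by rintro rfl; exact hx (by simpa using ha.symm)
  have hu0 : u₀ ≠ 0 := fun h => by simpa [hu₀] using congrFun h 0
  have h3 : ∀ m : ℕ, (-1 : ℝ) ^ m • (u₀ + (4 * r - 9) ^ m • u₁) ∈ orb B0 (u₀ + u₁) := by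
    intro m
    induction m with
    | zero => simpa using self_mem _
    | succ m ih =>
      convert refl_mem (refl_mem (refl_mem ih 2) 1) 0 using 1
      ext l; fin_cases l <;> simp [hu₀, hu₁, r0, r1, r2, pow_succ]
      · ring
      · linear_combination (-4 * (-1) ^ m * (4 * r - 9) ^ m) * hr
      · linear_combination (-12 * (-1) ^ m * (4 * r - 9) ^ m) * hr
  have h4 : G (orb B0 (u₀ + u₁)) u₀ := by
    refine ⟨fun m => u₀ + (4 * r - 9) ^ m • u₁, fun m => ⟨⟨_, by positivity, h3 m⟩, fun b hb => ?_⟩,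
      ?_⟩
    · have e0 := congrFun hb 0
      have e1 := congrFun hb 1
      simp [hu₀, hu₁] at e0 e1
      have : (4 * r - 9) ^ m * (5 + r) = 0 := by linarith
      exact mul_ne_zero (pow_ne_zero _ (by linarith)) (by linarith) this
    · simpa using ((tendsto_pow_atTop_nhds_zero_of_abs_lt_one
        (r := 4 * r - 9) (abs_lt.mpr ⟨by linarith, by linarith⟩)).smul_const u₁).const_add u₀
  have h5 := acc_smul _ ha0 (h4.acc hu0)
  rw [ha, h2, roots] at h5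
  have h6 : Q u₀ / N u₀ = 0 := h5
  simp [Q, N, hu₀] at h6
  norm_num at h6

end Pool.Agent.Results.MP_241ca8_al.No
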